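import Pool.Agent.H3.Elem

set_option autoImplicit false

open FirstOrder FirstOrder.Language N5f09da3c

namespace Pool.Agent.Results.MP_6e5331_al.NotEq

universe u

/-- function symbols: product, inverse, identity -/
inductive GFunc : ℕ → Type
  | mul : GFunc 2
  | inv : GFunc 1
  | one : GFunc 0

/-- the language of groups -/
def gLang : Language := { Functions := GFunc, Relations := fun _ => Empty }

/-- a group as a structure for the language of groups -/
@[reducible] def gStr (G : Type u) [Group G] : gLang.Structure G where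
  funMap := fun {n} f =>
    match n, f with
    | _, .mul => fun x => x 0 * x 1
    | _, .inv => fun x => (x 0)⁻¹
    | _, .one => fun _ => 1
  RelMap := fun r => Empty.elim r

section
variable {α : Type}

/-- product term -/
def mu (t s : gLang.Term α) : gLang.Term α := Term.func GFunc.mul ![t, s]
/-- inverse term -/
def iv (t : gLang.Term α) : gLang.Term α := Term.func GFunc.inv ![t]
/-- identity term -/
def un : gLang.Term α := Term.func GFunc.one ![]
/-- conjugate -/
def cj (t u : gLang.Term α) : gLang.Term α := mu (mu (iv u) t) u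
/-- product of two conjugates -/
def ee (a g h u v : gLang.Term α) : gLang.Term α :=
  mu (cj (mu a (cj a g)) u) (cj (iv (mu a (cj a h))) v)

variable {G : Type u} [Group G]

lemma r_mu (t s : gLang.Term α) (v : α → G) :
    @Term.realize _ _ (gStr G) _ v (mu t s) =
      @Term.realize _ _ (gStr G) _ v t * @Term.realize _ _ (gStr G) _ v s := rfl
lemma r_iv (t : gLang.Term α) (v : α → G) :
    @Term.realize _ _ (gStr G) _ v (iv t) = (@Term.realize _ _ (gStr G) _ v t)⁻¹ := rfl
lemma r_un (v : α → G) : @Term.realize _ _ (gStr G) _ v un = 1 := rfl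
end

/-- parameters -/
abbrev V0 := Empty ⊕ Fin 3

/-- the sentence -/
noncomputable def bad : gLang.Sentence :=
  Formula.iExs (Fin 3)
    ((Formula.iAlls (Fin 4) (Formula.iExs (Fin 2) (Term.equal
        (mu (ee (var (.inl (.inl (.inr 0)))) (var (.inl (.inl (.inr 1)))) (var (.inl (.inl (.inr 2))))
              (var (.inl (.inr 0))) (var (.inl (.inr 1))))
            (ee (var (.inl (.inl (.inr 0)))) (var (.inl (.inl (.inr 1)))) (var (.inl (.inl (.inr 2))))
              (var (.inl (.inr 2))) (var (.inl (.inr 3)))))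
        (ee (var (.inl (.inl (.inr 0)))) (var (.inl (.inl (.inr 1)))) (var (.inl (.inl (.inr 2))))
              (var (.inr 0)) (var (.inr 1))))) : gLang.Formula V0) ⊓
     ((Formula.iAlls (Fin 2) (Term.equal
        (ee (var (.inl (.inr 0))) (var (.inl (.inr 1))) (var (.inl (.inr 2)))
          (var (.inr 0)) (var (.inr 1))) un).not) ⊓
     ((Formula.iExs (Fin 2) (Term.equal
        (mu (var (.inl (.inr 0))) (cj (var (.inl (.inr 0))) (var (.inl (.inr 1)))))
        (ee (var (.inl (.inr 0))) (var (.inl (.inr 1))) (var (.inl (.inr 2)))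
          (var (.inr 0)) (var (.inr 1))))) ⊓
      (Formula.iExs (Fin 2) (Term.equal
        (iv (mu (var (.inl (.inr 0))) (cj (var (.inl (.inr 0))) (var (.inl (.inr 2))))))
        (ee (var (.inl (.inr 0))) (var (.inl (.inr 1))) (var (.inl (.inr 2)))
          (var (.inr 0)) (var (.inr 1))))))))

lemma bad_iff (G : Type u) [Group G] :
    @Sentence.Realize _ G (gStr G) bad ↔ Pool.Agent.H3.Elem.Bad G := by
  letI := gStr G
  simp only [Sentence.Realize, bad, Formula.realize_iExs, Formula.realize_iAlls,
    Formula.realize_inf, Formula.realize_not, Formula.realize_equal, ee, cj, r_mu, r_iv, r_un,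
    Term.realize_var, Sum.elim_inl, Sum.elim_inr, Pool.Agent.H3.Elem.Bad]
  constructor
  · rintro ⟨i, h1, h2, ⟨j, h3⟩, ⟨k, h4⟩⟩
    refine ⟨i 0, i 1, i 2, fun u v u' v' => ?_, fun u v => h2 ![u, v], ⟨_, _, h3⟩, ⟨_, _, h4⟩⟩
    obtain ⟨p, hp⟩ := h1 ![u, v, u', v']
    exact ⟨_, _, hp⟩
  · rintro ⟨a, g, h, h1, h2, ⟨u, v, h3⟩, ⟨u', v', h4⟩⟩
    refine ⟨![a, g, h], fun i => ?_, fun i => h2 _ _, ⟨![u, v], h3⟩, ⟨![u', v'], h4⟩⟩
    obtain ⟨p, q, hp⟩ := h1 (i 0) (i 1) (i 2) (i 3)
    exact ⟨![p, q], hp⟩

/-- An orderable group fails a first-order sentence true in all pro-orderable groups. -/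
theorem result :
    ∃ (G : Type) (_ : Group G) (φ : gLang.Sentence),
      (∃ s : G → G → Prop, IsLinearOrder G s ∧ IsBiInvariant G s) ∧
      (∀ (H : Type u) [Group H], ProOrderable H → @Sentence.Realize _ H (gStr H) φ) ∧
      ¬ @Sentence.Realize _ G (gStr G) φ := by
  refine ⟨Pool.Agent.H3.Elem.G0, inferInstance, bad.not, Pool.Agent.H3.Elem.G0_ord,
    fun H _ hH => ?_, ?_⟩
  · letI := gStr H
    exact (Sentence.realize_not H).2 fun h => Pool.Agent.H3.Elem.not_bad hH ((bad_iff H).1 h)
  · letI := gStr Pool.Agent.H3.Elem.G0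
    exact fun h => (Sentence.realize_not _).1 h ((bad_iff _).2 Pool.Agent.H3.Elem.G0_bad)

end Pool.Agent.Results.MP_6e5331_al.NotEq
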